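import Pool.Agent.Helper112.Arith

/-! Preparations for QO-AVG. -/

set_option autoImplicit false

namespace Pool.Agent.W861.QO

open Finset

theorem sum_inv_le (n : ℕ) (hn : 1 ≤ n) :
    ∑ g ∈ n.divisors, (1 : ℝ) / g
      ≤ 2 * ∑ d ∈ n.divisors.filter (fun d => Squarefree d), (1 : ℝ) / d := by
  classical
  have hex : ∀ g : ℕ, ∃ p : ℕ × ℕ, g ∈ n.divisors → p.2 ^ 2 * p.1 = g ∧ Squarefree p.1 := by
    intro g
    obtain ⟨a, b, h1, h2⟩ := Nat.sq_mul_squarefree g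
    exact ⟨(a, b), fun _ => ⟨h1, h2⟩⟩
  choose F hF using hex
  have hmaps : ∀ g ∈ n.divisors, F g ∈
      (n.divisors.filter (fun d => Squarefree d)) ×ˢ (Finset.Ioo 0 (n + 1)) := by
    intro g hg
    obtain ⟨h1, h2⟩ := hF g hg
    have hg0 : 0 < g := Nat.pos_of_mem_divisors hg
    have hgn : g ∣ n := Nat.dvd_of_mem_divisors hg
    have hm0 : 0 < (F g).2 := by
      rcases Nat.eq_zero_or_pos (F g).2 with h | h
      · rw [h] at h1; simp at h1; omega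
      · exact h
    have hd0 : 0 < (F g).1 := by
      rcases Nat.eq_zero_or_pos (F g).1 with h | h
      · rw [h] at h1; simp at h1; omega
      · exact h
    rw [Finset.mem_product, Finset.mem_filter, Nat.mem_divisors, Finset.mem_Ioo]
    refine ⟨⟨⟨(Dvd.intro_left _ h1).trans hgn, by omega⟩, h2⟩, hm0, ?_⟩
    have h3 : (F g).2 ≤ g := by
      calc (F g).2 ≤ (F g).2 ^ 2 := Nat.le_self_pow (by norm_num) _
        _ ≤ (F g).2 ^ 2 * (F g).1 := Nat.le_mul_of_pos_right _ hd0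
        _ = g := h1
    have h4 : g ≤ n := Nat.le_of_dvd (by omega) hgn
    omega
  have hinj : Set.InjOn F n.divisors := by
    intro g hg g' hg' he
    rw [← (hF g hg).1, ← (hF g' hg').1, he]
  calc ∑ g ∈ n.divisors, (1 : ℝ) / g
      = ∑ g ∈ n.divisors, (1 : ℝ) / ((F g).1 : ℝ) * (((F g).2 : ℝ) ^ 2)⁻¹ := by
        refine Finset.sum_congr rfl fun g hg => ?_
        have h1 := (hF g hg).1
        have h2 : (g : ℝ) = ((F g).2 : ℝ) ^ 2 * ((F g).1 : ℝ) := by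
          rw [← Nat.cast_pow, ← Nat.cast_mul, h1]
        rw [h2, one_div, mul_inv, one_div, mul_comm]
    _ = ∑ p ∈ n.divisors.image F, (1 : ℝ) / (p.1 : ℝ) * ((p.2 : ℝ) ^ 2)⁻¹ := by
        rw [Finset.sum_image hinj]
    _ ≤ ∑ p ∈ (n.divisors.filter (fun d => Squarefree d)) ×ˢ (Finset.Ioo 0 (n + 1)),
          (1 : ℝ) / (p.1 : ℝ) * ((p.2 : ℝ) ^ 2)⁻¹ := by
        refine Finset.sum_le_sum_of_subset_of_nonneg ?_ fun p _ _ => by positivity
        intro p hp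
        obtain ⟨g, hg, rfl⟩ := Finset.mem_image.mp hp
        exact hmaps g hg
    _ = ∑ d ∈ n.divisors.filter (fun d => Squarefree d),
          (1 : ℝ) / (d : ℝ) * ∑ m ∈ Finset.Ioo 0 (n + 1), ((m : ℝ) ^ 2)⁻¹ := by
        rw [Finset.sum_product]
        exact Finset.sum_congr rfl fun d _ => by rw [Finset.mul_sum]
    _ ≤ ∑ d ∈ n.divisors.filter (fun d => Squarefree d), (1 : ℝ) / (d : ℝ) * 2 := by
        refine Finset.sum_le_sum fun d _ => ?_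
        have h := sum_Ioo_inv_sq_le (α := ℝ) 0 (n + 1)
        have h2 : (∑ m ∈ Finset.Ioo 0 (n + 1), ((m : ℝ) ^ 2)⁻¹) ≤ 2 := by
          simpa using h
        exact mul_le_mul_of_nonneg_left h2 (by positivity)
    _ = 2 * ∑ d ∈ n.divisors.filter (fun d => Squarefree d), (1 : ℝ) / d := by
        rw [Finset.mul_sum]
        exact Finset.sum_congr rfl fun d _ => by ring

theorem two_pow_le {d : ℕ} (hd : 0 < d) : 2 ^ d.primeFactors.card ≤ d.divisors.card := by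
  rw [← Finset.card_powerset]
  refine Finset.card_le_card_of_injOn (fun s => ∏ p ∈ s, p) ?_ ?_
  · intro s hs
    rw [Finset.mem_coe, Finset.mem_powerset] at hs
    rw [Finset.mem_coe, Nat.mem_divisors]
    refine ⟨?_, hd.ne'⟩
    exact (Finset.prod_dvd_prod_of_subset _ _ _ hs).trans (Nat.prod_primeFactors_dvd d)
  · intro s hs t ht hst
    rw [Finset.mem_coe, Finset.mem_powerset] at hs ht
    have h1 : (∏ p ∈ s, p).primeFactors = s :=
      Nat.primeFactors_prod fun p hp => Nat.prime_of_mem_primeFactors (hs hp)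
    have h2 : (∏ p ∈ t, p).primeFactors = t :=
      Nat.primeFactors_prod fun p hp => Nat.prime_of_mem_primeFactors (ht hp)
    simp only at hst
    rw [← h1, ← h2, hst]

theorem sum_omega : ∃ C : ℝ, 0 < C ∧ ∀ X : ℕ,
    ∑ d ∈ Finset.Icc 1 X, (3 : ℝ) ^ d.primeFactors.card / (d : ℝ) ^ 2 ≤ C := by
  obtain ⟨C, hC, h⟩ := Pool.Agent.Helper112.divisor_bound (1 / 4) (by norm_num)
  have hs : Summable (fun d : ℕ => 1 / (d : ℝ) ^ (3 / 2 : ℝ)) :=
    Real.summable_one_div_nat_rpow.mpr (by norm_num)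
  have hpos : 0 ≤ ∑' d : ℕ, 1 / (d : ℝ) ^ (3 / 2 : ℝ) := tsum_nonneg fun d => by positivity
  refine ⟨C ^ 2 * (∑' d : ℕ, 1 / (d : ℝ) ^ (3 / 2 : ℝ)) + 1, by positivity, fun X => ?_⟩
  have hterm : ∀ d ∈ Finset.Icc 1 X, (3 : ℝ) ^ d.primeFactors.card / (d : ℝ) ^ 2
      ≤ C ^ 2 * (1 / (d : ℝ) ^ (3 / 2 : ℝ)) := by
    intro d hd
    have hd1 : 1 ≤ d := (Finset.mem_Icc.mp hd).1
    have hd0 : (0 : ℝ) < d := by exact_mod_cast hd1
    have h1 : (3 : ℝ) ^ d.primeFactors.card ≤ ((d.divisors.card : ℝ)) ^ 2 := by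
      have h2 : (2 : ℝ) ^ d.primeFactors.card ≤ (d.divisors.card : ℝ) := by
        exact_mod_cast two_pow_le hd1
      calc (3 : ℝ) ^ d.primeFactors.card ≤ (4 : ℝ) ^ d.primeFactors.card := by
            gcongr; norm_num
        _ = ((2 : ℝ) ^ d.primeFactors.card) ^ 2 := by
            rw [← pow_mul, mul_comm, pow_mul]; norm_num
        _ ≤ _ := by gcongr
    have h3 : (d.divisors.card : ℝ) ^ 2 ≤ C ^ 2 * (d : ℝ) ^ (1 / 2 : ℝ) := by
      have h4 := h d hd1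
      calc (d.divisors.card : ℝ) ^ 2 ≤ (C * (d : ℝ) ^ (1 / 4 : ℝ)) ^ 2 := by gcongr
        _ = C ^ 2 * (d : ℝ) ^ (1 / 2 : ℝ) := by
            rw [mul_pow, ← Real.rpow_natCast ((d : ℝ) ^ (1 / 4 : ℝ)) 2, ← Real.rpow_mul hd0.le]
            norm_num
    have h5 : (d : ℝ) ^ (1 / 2 : ℝ) / (d : ℝ) ^ 2 = 1 / (d : ℝ) ^ (3 / 2 : ℝ) := by
      have h6 : (1 / 2 : ℝ) - ((2 : ℕ) : ℝ) = -(3 / 2 : ℝ) := by norm_num
      rw [← Real.rpow_natCast (d : ℝ) 2, ← Real.rpow_sub hd0, h6, Real.rpow_neg hd0.le]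
      exact (one_div _).symm
    calc (3 : ℝ) ^ d.primeFactors.card / (d : ℝ) ^ 2
        ≤ (C ^ 2 * (d : ℝ) ^ (1 / 2 : ℝ)) / (d : ℝ) ^ 2 := by
          gcongr
          exact h1.trans h3
      _ = C ^ 2 * (1 / (d : ℝ) ^ (3 / 2 : ℝ)) := by rw [mul_div_assoc, h5]
  calc ∑ d ∈ Finset.Icc 1 X, (3 : ℝ) ^ d.primeFactors.card / (d : ℝ) ^ 2
      ≤ ∑ d ∈ Finset.Icc 1 X, C ^ 2 * (1 / (d : ℝ) ^ (3 / 2 : ℝ)) := Finset.sum_le_sum hterm
    _ = C ^ 2 * ∑ d ∈ Finset.Icc 1 X, (1 / (d : ℝ) ^ (3 / 2 : ℝ)) := by rw [Finset.mul_sum]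
    _ ≤ C ^ 2 * ∑' d : ℕ, 1 / (d : ℝ) ^ (3 / 2 : ℝ) := by
        gcongr
        exact hs.sum_le_tsum _ fun d _ => by positivity
    _ ≤ _ := by linarith

end Pool.Agent.W861.QO
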