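import Pool.Agent.W978.QO.Stm
import Pool.Agent.W861.QO.Pre

/-! QO-AVG. -/

set_option autoImplicit false

namespace Pool.Agent.W861.QO

open Finset Pool.Agent.W978.QN Pool.Agent.W978.QO

theorem cls (d X : ℕ) (hd : 1 ≤ d) (hdX : d ≤ X) (x : ZMod d) :
    ((((Finset.Icc (-(X : ℤ)) X).filter (fun t : ℤ => (t : ZMod d) = x)).card : ℕ) : ℝ)
      ≤ 4 * X / d := by
  obtain ⟨v, hv⟩ := ZMod.intCast_surjective x
  have hd0 : (0 : ℤ) < d := by exact_mod_cast hd
  have hd0' : (0 : ℝ) < d := by exact_mod_cast hd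
  have hdX' : (d : ℝ) ≤ X := by exact_mod_cast hdX
  have hX1 : (1 : ℝ) ≤ X := by exact_mod_cast (hd.trans hdX)
  -- injection into an interval of quotients
  have hinj : ((Finset.Icc (-(X : ℤ)) X).filter (fun t : ℤ => (t : ZMod d) = x)).card
      ≤ (Finset.range (2 * X / d + 1)).card := by
    refine Finset.card_le_card_of_injOn (fun t : ℤ => ((t + X) / (d : ℤ)).toNat) ?_ ?_
    · intro t ht
      rw [Finset.mem_coe, Finset.mem_filter, Finset.mem_Icc] at ht
      rw [Finset.mem_coe, Finset.mem_range]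
      have h1 : 0 ≤ (t + X) / (d : ℤ) := Int.ediv_nonneg (by omega) hd0.le
      have h2 : (t + X) / (d : ℤ) ≤ ((2 * X : ℕ) : ℤ) / (d : ℤ) :=
        Int.ediv_le_ediv hd0 (by push_cast; omega)
      have h3 : ((2 * X : ℕ) : ℤ) / (d : ℤ) = ((2 * X / d : ℕ) : ℤ) := by
        rw [Int.natCast_div]
      show ((t + X) / (d : ℤ)).toNat < 2 * X / d + 1
      omega
    · intro t ht t' ht' he
      rw [Finset.mem_coe, Finset.mem_filter, Finset.mem_Icc] at ht ht'
      have h1 : 0 ≤ (t + X) / (d : ℤ) := Int.ediv_nonneg (by omega) hd0.le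
      have h1' : 0 ≤ (t' + X) / (d : ℤ) := Int.ediv_nonneg (by omega) hd0.le
      have he' : ((t + X) / (d : ℤ)).toNat = ((t' + X) / (d : ℤ)).toNat := he
      have h2 : (t + X) / (d : ℤ) = (t' + X) / (d : ℤ) := by omega
      have h3 : ((t + X : ℤ) : ZMod d) = ((t' + X : ℤ) : ZMod d) := by
        push_cast
        rw [ht.2, ht'.2]
      rw [ZMod.intCast_eq_intCast_iff] at h3
      have h4 : (t + X) % (d : ℤ) = (t' + X) % (d : ℤ) := h3
      have h5 := Int.emod_add_mul_ediv (t + X) d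
      have h6 := Int.emod_add_mul_ediv (t' + X) d
      rw [h2, h4] at h5
      linarith
  rw [Finset.card_range] at hinj
  have h2 : ((2 * X / d : ℕ) : ℝ) ≤ 2 * X / d := by
    have := @Nat.cast_div_le ℝ _ _ _ (2 * X) d
    push_cast at this
    exact this
  have h3 : (1 : ℝ) ≤ X / d := by rw [le_div_iff₀ hd0']; linarith
  have h4 : (0 : ℝ) ≤ X / d := by linarith
  calc _ ≤ ((2 * X / d + 1 : ℕ) : ℝ) := by exact_mod_cast hinj
    _ ≤ 2 * X / d + X / d := by push_cast; linarith
    _ ≤ 4 * X / d := by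
        have : (4 : ℝ) * X / d = 2 * X / d + X / d + X / d := by ring
        linarith

theorem det_cast (b : Fin 3 → Fin 3 → Fin 3 → ℤ) (p : Fin 3 → ℤ) (d : ℕ) :
    (Matrix.of (mp b (fun i => (p i : ZMod d)))).det = ((dm (mp b p) : ℤ) : ZMod d) := by
  rw [Matrix.det_fin_three, dm_eq]
  unfold mp
  simp only [Matrix.of_apply]
  push_cast
  ring

theorem count_le (b : Fin 3 → Fin 3 → Fin 3 → ℤ) (d X : ℕ) (hd : 1 ≤ d) (hdX : d ≤ X) :
    ((((bx X).filter (fun p => (d : ℤ) ∣ dm (mp b p))).card : ℕ) : ℝ)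
      ≤ (Nat.card {x : Fin 3 → ZMod d // (Matrix.of (mp b x)).det = 0} : ℝ) * (4 * X / d) ^ 3 := by
  classical
  haveI : NeZero d := ⟨by omega⟩
  set Z : Finset (Fin 3 → ZMod d) :=
    Finset.univ.filter (fun x => (Matrix.of (mp b x)).det = 0) with hZ
  have hcard : Nat.card {x : Fin 3 → ZMod d // (Matrix.of (mp b x)).det = 0} = Z.card := by
    rw [Nat.card_eq_fintype_card, Fintype.card_subtype]
  have hmap : ∀ p ∈ (bx X).filter (fun p => (d : ℤ) ∣ dm (mp b p)),
      (fun i => (p i : ZMod d)) ∈ Z := by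
    intro p hp
    rw [Finset.mem_filter] at hp
    rw [hZ, Finset.mem_filter]
    refine ⟨Finset.mem_univ _, ?_⟩
    rw [det_cast]
    exact (ZMod.intCast_zmod_eq_zero_iff_dvd _ _).mpr hp.2
  have hfib : ∀ x : Fin 3 → ZMod d,
      (((((bx X).filter (fun p => (d : ℤ) ∣ dm (mp b p))).filter
        (fun p => (fun i => (p i : ZMod d)) = x)).card : ℕ) : ℝ) ≤ (4 * X / d) ^ 3 := by
    intro x
    have hsub : ((bx X).filter (fun p => (d : ℤ) ∣ dm (mp b p))).filter
        (fun p => (fun i => (p i : ZMod d)) = x) ⊆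
        Fintype.piFinset (fun i =>
          (Finset.Icc (-(X : ℤ)) X).filter (fun t : ℤ => (t : ZMod d) = x i)) := by
      intro p hp
      rw [Finset.mem_filter, Finset.mem_filter] at hp
      obtain ⟨⟨h1, _⟩, h2⟩ := hp
      unfold bx at h1
      rw [Fintype.mem_piFinset] at h1 ⊢
      intro i
      rw [Finset.mem_filter]
      exact ⟨h1 i, congrFun h2 i⟩
    have h1 := Finset.card_le_card hsub
    rw [Fintype.card_piFinset, Fin.prod_univ_three] at h1
    have h2 : ∀ i, ((((Finset.Icc (-(X : ℤ)) X).filter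
        (fun t : ℤ => (t : ZMod d) = x i)).card : ℕ) : ℝ) ≤ 4 * X / d :=
      fun i => cls d X hd hdX (x i)
    calc _ ≤ (((((Finset.Icc (-(X : ℤ)) X).filter (fun t : ℤ => (t : ZMod d) = x 0)).card *
          ((Finset.Icc (-(X : ℤ)) X).filter (fun t : ℤ => (t : ZMod d) = x 1)).card *
          ((Finset.Icc (-(X : ℤ)) X).filter (fun t : ℤ => (t : ZMod d) = x 2)).card : ℕ)) : ℝ) := by
            exact_mod_cast h1
      _ ≤ (4 * X / d) * (4 * X / d) * (4 * X / d) := by
          push_cast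
          have h0 := h2 0
          have h1' := h2 1
          have h2' := h2 2
          gcongr
      _ = (4 * X / d) ^ 3 := by ring
  have h := Finset.card_eq_sum_card_fiberwise
    (s := (bx X).filter (fun p => (d : ℤ) ∣ dm (mp b p))) (t := Z)
    (f := fun p => (fun i => (p i : ZMod d))) (fun p hp => hmap p (Finset.mem_coe.mp hp))
  rw [h, hcard]
  push_cast
  calc _ ≤ ∑ x ∈ Z, (4 * (X : ℝ) / d) ^ 3 := Finset.sum_le_sum fun x _ => hfib x
    _ = _ := by rw [Finset.sum_const, nsmul_eq_mul]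

theorem AVG (hRHO : S_RHO) : S_AVG := by
  classical
  intro b hb
  obtain ⟨C, hC, hrho⟩ := hRHO b hb
  obtain ⟨C1, hC1, hom⟩ := sum_omega
  obtain ⟨C2, hC2, hdiv⟩ := Pool.Agent.Helper112.divisor_bound (1 / 3) (by norm_num)
  have hmxb : (0 : ℝ) ≤ mxb b := Nat.cast_nonneg _
  refine ⟨2 * (64 * C * C1) + 2 * (27 * (C2 * (6 * (3 * (mxb b : ℝ)) ^ 3) ^ (1 / 3 : ℝ))) + 1,
    by positivity, ?_⟩
  intro X hX
  have hX0 : (0 : ℝ) < X := by exact_mod_cast hX
  -- pointwise
  have hpt : ∀ p ∈ (bx X).filter (fun p => dm (mp b p) ≠ 0),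
      ∑ g ∈ (dm (mp b p)).natAbs.divisors, (1 / (g : ℝ)) ≤
        2 * (∑ d ∈ (Finset.Icc 1 X).filter (fun d : ℕ => Squarefree d ∧ (d : ℤ) ∣ dm (mp b p)),
            (1 / (d : ℝ))) + 2 * (C2 * (6 * (3 * (mxb b : ℝ)) ^ 3) ^ (1 / 3 : ℝ)) := by
    intro p hp
    rw [Finset.mem_filter] at hp
    obtain ⟨hpb, hne⟩ := hp
    set n := (dm (mp b p)).natAbs with hn
    have hn1 : 1 ≤ n := Int.natAbs_pos.mpr hne
    have hn0 : (0 : ℝ) < n := by exact_mod_cast hn1
    have h1 := sum_inv_le n hn1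
    have hnle : (n : ℝ) ≤ 6 * (3 * (mxb b : ℝ)) ^ 3 * (X : ℝ) ^ 3 := by
      have h2 : |dm (mp b p)| ≤ 6 * (3 * mxb b * X) ^ 3 :=
        dm_le (by positivity) (mp_le b hpb)
      have h3 : (n : ℤ) ≤ 6 * (3 * mxb b * X) ^ 3 := by
        rw [hn, Int.natCast_natAbs]; exact h2
      have h4 : (n : ℝ) ≤ 6 * (3 * mxb b * X) ^ 3 := by exact_mod_cast h3
      calc (n : ℝ) ≤ 6 * (3 * mxb b * X) ^ 3 := h4
        _ = _ := by ring
    -- split
    have hsplit : ∑ d ∈ n.divisors.filter (fun d => Squarefree d), (1 : ℝ) / d ≤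
        (∑ d ∈ (Finset.Icc 1 X).filter (fun d : ℕ => Squarefree d ∧ (d : ℤ) ∣ dm (mp b p)),
            (1 / (d : ℝ))) + C2 * (6 * (3 * (mxb b : ℝ)) ^ 3) ^ (1 / 3 : ℝ) := by
      rw [← Finset.sum_filter_add_sum_filter_not (n.divisors.filter (fun d => Squarefree d))
        (fun d => d ≤ X)]
      refine add_le_add ?_ ?_
      · refine Finset.sum_le_sum_of_subset_of_nonneg ?_ fun _ _ _ => by positivity
        intro d hd
        rw [Finset.mem_filter, Finset.mem_filter, Nat.mem_divisors] at hd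
        obtain ⟨⟨⟨h2, h3⟩, h4⟩, h5⟩ := hd
        rw [Finset.mem_filter, Finset.mem_Icc]
        refine ⟨⟨Nat.pos_of_dvd_of_pos h2 hn1, h5⟩, h4, ?_⟩
        exact Int.natCast_dvd.mpr h2
      · calc ∑ d ∈ (n.divisors.filter (fun d => Squarefree d)).filter (fun d => ¬ d ≤ X),
              (1 : ℝ) / d
            ≤ ∑ d ∈ (n.divisors.filter (fun d => Squarefree d)).filter (fun d => ¬ d ≤ X),
              (1 : ℝ) / X := by
              refine Finset.sum_le_sum fun d hd => ?_
              rw [Finset.mem_filter] at hd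
              have h2 : X ≤ d := (not_le.mp hd.2).le
              have h3 : (X : ℝ) ≤ d := by exact_mod_cast h2
              exact one_div_le_one_div_of_le hX0 h3
          _ = (((n.divisors.filter (fun d => Squarefree d)).filter
                (fun d => ¬ d ≤ X)).card : ℝ) * (1 / X) := by
              rw [Finset.sum_const, nsmul_eq_mul]
          _ ≤ (n.divisors.card : ℝ) * (1 / X) := by
              have h2 : ((n.divisors.filter (fun d => Squarefree d)).filter
                (fun d => ¬ d ≤ X)).card ≤ n.divisors.card :=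
                (Finset.card_le_card (Finset.filter_subset _ _)).trans
                  (Finset.card_le_card (Finset.filter_subset _ _))
              have h3 : (((n.divisors.filter (fun d => Squarefree d)).filter
                (fun d => ¬ d ≤ X)).card : ℝ) ≤ (n.divisors.card : ℝ) := by exact_mod_cast h2
              exact mul_le_mul_of_nonneg_right h3 (by positivity)
          _ ≤ (C2 * (n : ℝ) ^ (1 / 3 : ℝ)) * (1 / X) :=
              mul_le_mul_of_nonneg_right (hdiv n hn1) (by positivity)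
          _ ≤ (C2 * ((6 * (3 * (mxb b : ℝ)) ^ 3) ^ (1 / 3 : ℝ) * X)) * (1 / X) := by
              have h2 : (n : ℝ) ^ (1 / 3 : ℝ) ≤
                  (6 * (3 * (mxb b : ℝ)) ^ 3) ^ (1 / 3 : ℝ) * X := by
                calc (n : ℝ) ^ (1 / 3 : ℝ)
                    ≤ (6 * (3 * (mxb b : ℝ)) ^ 3 * (X : ℝ) ^ 3) ^ (1 / 3 : ℝ) :=
                      Real.rpow_le_rpow hn0.le hnle (by norm_num)
                  _ = _ := by
                      rw [Real.mul_rpow (by positivity) (by positivity)]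
                      congr 1
                      rw [← Real.rpow_natCast (X : ℝ) 3, ← Real.rpow_mul hX0.le]
                      norm_num
              gcongr
          _ = _ := by field_simp
    calc ∑ g ∈ n.divisors, (1 / (g : ℝ)) ≤ _ := h1
      _ ≤ 2 * _ := mul_le_mul_of_nonneg_left hsplit (by norm_num)
      _ = _ := by ring
  have hS1 : ∑ p ∈ (bx X).filter (fun p => dm (mp b p) ≠ 0),
      ∑ d ∈ (Finset.Icc 1 X).filter (fun d : ℕ => Squarefree d ∧ (d : ℤ) ∣ dm (mp b p)),
        (1 / (d : ℝ)) ≤ 64 * C * C1 * (X : ℝ) ^ 3 := by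
    rw [Finset.sum_comm' (t' := (Finset.Icc 1 X).filter (fun d : ℕ => Squarefree d))
      (s' := fun d : ℕ => (bx X).filter (fun p => dm (mp b p) ≠ 0 ∧ (d : ℤ) ∣ dm (mp b p)))]
    · calc _ ≤ ∑ d ∈ (Finset.Icc 1 X).filter (fun d : ℕ => Squarefree d),
            64 * C * (X : ℝ) ^ 3 * ((3 : ℝ) ^ d.primeFactors.card / (d : ℝ) ^ 2) := by
            refine Finset.sum_le_sum fun d hd => ?_
            rw [Finset.mem_filter, Finset.mem_Icc] at hd
            obtain ⟨⟨hd1, hdX⟩, hsq⟩ := hd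
            have hd0 : (0 : ℝ) < d := by exact_mod_cast hd1
            rw [Finset.sum_const, nsmul_eq_mul]
            have h1 : (((bx X).filter
                (fun p => dm (mp b p) ≠ 0 ∧ (d : ℤ) ∣ dm (mp b p))).card : ℝ) ≤
                (((bx X).filter (fun p => (d : ℤ) ∣ dm (mp b p))).card : ℝ) := by
              have : ((bx X).filter
                (fun p => dm (mp b p) ≠ 0 ∧ (d : ℤ) ∣ dm (mp b p))).card ≤
                ((bx X).filter (fun p => (d : ℤ) ∣ dm (mp b p))).card := by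
                refine Finset.card_le_card fun p hp => ?_
                rw [Finset.mem_filter] at hp ⊢
                exact ⟨hp.1, hp.2.2⟩
              exact_mod_cast this
            have h2 := count_le b d X hd1 hdX
            have h3 := hrho d hd1 hsq
            have h4 : (0 : ℝ) ≤ (4 * X / d) ^ 3 := by positivity
            calc _ ≤ ((C * (3 : ℝ) ^ d.primeFactors.card * (d : ℝ) ^ 2) * (4 * X / d) ^ 3) *
                  (1 / (d : ℝ)) := by
                  refine mul_le_mul_of_nonneg_right ?_ (by positivity)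
                  exact h1.trans (h2.trans (mul_le_mul_of_nonneg_right h3 h4))
              _ = _ := by
                  field_simp
                  ring
        _ ≤ ∑ d ∈ Finset.Icc 1 X,
            64 * C * (X : ℝ) ^ 3 * ((3 : ℝ) ^ d.primeFactors.card / (d : ℝ) ^ 2) :=
            Finset.sum_le_sum_of_subset_of_nonneg (Finset.filter_subset _ _)
              fun _ _ _ => by positivity
        _ = 64 * C * (X : ℝ) ^ 3 *
            ∑ d ∈ Finset.Icc 1 X, ((3 : ℝ) ^ d.primeFactors.card / (d : ℝ) ^ 2) := by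
            rw [Finset.mul_sum]
        _ ≤ 64 * C * (X : ℝ) ^ 3 * C1 := mul_le_mul_of_nonneg_left (hom X) (by positivity)
        _ = _ := by ring
    · intro p d
      simp only [Finset.mem_filter]
      tauto
  have hcb : (((bx X).filter (fun p => dm (mp b p) ≠ 0)).card : ℝ) ≤ 27 * (X : ℝ) ^ 3 := by
    refine le_trans ?_ (card_bx_le hX)
    exact_mod_cast Finset.card_le_card (Finset.filter_subset _ _)
  calc _ ≤ ∑ p ∈ (bx X).filter (fun p => dm (mp b p) ≠ 0),
        (2 * (∑ d ∈ (Finset.Icc 1 X).filter (fun d : ℕ => Squarefree d ∧ (d : ℤ) ∣ dm (mp b p)),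
            (1 / (d : ℝ))) + 2 * (C2 * (6 * (3 * (mxb b : ℝ)) ^ 3) ^ (1 / 3 : ℝ))) :=
        Finset.sum_le_sum hpt
    _ = 2 * (∑ p ∈ (bx X).filter (fun p => dm (mp b p) ≠ 0),
      ∑ d ∈ (Finset.Icc 1 X).filter (fun d : ℕ => Squarefree d ∧ (d : ℤ) ∣ dm (mp b p)),
        (1 / (d : ℝ))) + (((bx X).filter (fun p => dm (mp b p) ≠ 0)).card : ℝ) *
          (2 * (C2 * (6 * (3 * (mxb b : ℝ)) ^ 3) ^ (1 / 3 : ℝ))) := by
        rw [Finset.sum_add_distrib, ← Finset.mul_sum, Finset.sum_const, nsmul_eq_mul]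
    _ ≤ 2 * (64 * C * C1 * (X : ℝ) ^ 3) + (27 * (X : ℝ) ^ 3) *
          (2 * (C2 * (6 * (3 * (mxb b : ℝ)) ^ 3) ^ (1 / 3 : ℝ))) := by
        have h0 : (0 : ℝ) ≤ 2 * (C2 * (6 * (3 * (mxb b : ℝ)) ^ 3) ^ (1 / 3 : ℝ)) := by positivity
        exact add_le_add (mul_le_mul_of_nonneg_left hS1 (by norm_num))
          (mul_le_mul_of_nonneg_right hcb h0)
    _ ≤ _ := by
        have h0 : (0 : ℝ) ≤ (X : ℝ) ^ 3 := by positivity
        nlinarith

end Pool.Agent.W861.QO
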